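import Mathlib

/-! Hall's formula `(ab)^p = a^p b^p` in small class. -/

set_option autoImplicit false

open scoped commutatorElement

namespace Pool.Agent.H77.SP

private theorem nat1 (n : ℕ) : (n + 1) * n = 2 * (n + 1).choose 2 := by
  have := Nat.add_one_mul_choose_eq n 1
  simp only [Nat.choose_one_right] at this
  rw [this]; ring

private theorem nat3 (n : ℕ) : (n + 1) * n.choose 2 = 3 * (n + 1).choose 3 := by
  have := Nat.add_one_mul_choose_eq n 2
  rw [this]; ring

private theorem nat2 (n : ℕ) : n * (n + 1).choose 2 = 3 * (n + 1).choose 3 + (n + 1).choose 2 := by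
  have h3 := nat3 n
  have h1 := nat1 n
  have h2 : (n + 1).choose 2 = n + n.choose 2 := by
    rw [Nat.choose_succ_succ' n 1, Nat.choose_one_right]
  nlinarith [h1, h2, h3]

private theorem dvd_ch {p i : ℕ} (hp : p.Prime) (h1 : 1 < i) (h2 : i < p) : p ∣ (p + 1).choose i := by
  obtain ⟨j, rfl⟩ : ∃ j, i = j + 1 := ⟨i - 1, by omega⟩
  rw [Nat.choose_succ_succ']
  exact dvd_add (hp.dvd_choose_self (by omega) (by omega)) (hp.dvd_choose_self (by omega) h2)

/-- the elements of the abelian group -/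
private theorem core {p : ℕ} {H T : Type*} [Group H] [CommGroup T] (ι : T →* H)
    (c : H →* MulAut T) (hc : ∀ g x, g * ι x = ι (c g x) * g) (a b : H)
    (d dx dy dxx dxy dyy : T) (hd : a * b = ι d * b * a)
    (had : c a d = dx * d) (hax : c a dx = dxx * dx) (haxx : c a dxx = dxx)
    (hbd : c b d = dy * d) (hbx : c b dx = dxy * dx) (hby : c b dy = dyy * dy)
    (hbxx : c b dxx = dxx) (hbxy : c b dxy = dxy) (hbyy : c b dyy = dyy)
    (e1 : d ^ (p + 1).choose 2 = 1) (e2 : dx ^ (p + 1).choose 3 = 1) (e3 : dy ^ (p + 1).choose 3 = 1)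
    (e4 : dxx ^ (p + 1).choose 4 = 1) (e5 : dxy ^ (p + 1).choose 3 = 1)
    (e6 : dxy ^ (p + 1).choose 4 = 1) (e7 : dyy ^ (p + 1).choose 4 = 1)
    (f1 : d ^ p = 1) (f2 : dx ^ p.choose 2 = 1) (f3 : dxx ^ p.choose 3 = 1) :
    (a * b) ^ p = a ^ p * b ^ p := by
  have hD : ∀ i : ℕ, a ^ i * b = ι (d ^ i * dx ^ i.choose 2 * dxx ^ i.choose 3) * b * a ^ i := by
    intro i
    induction i with
    | zero => simp
    | succ i ih =>
      have h1 : (i + 1).choose 2 = i + i.choose 2 := by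
        rw [Nat.choose_succ_succ' i 1, Nat.choose_one_right]
      have h2 : (i + 1).choose 3 = i.choose 2 + i.choose 3 := Nat.choose_succ_succ' i 2
      have hca : c a (d ^ i * dx ^ i.choose 2 * dxx ^ i.choose 3) * d
          = d ^ (i + 1) * dx ^ (i + 1).choose 2 * dxx ^ (i + 1).choose 3 := by
        rw [map_mul, map_mul, map_pow, map_pow, map_pow, had, hax, haxx, h1, h2]
        simp only [mul_pow, pow_add, pow_one]
        ac_rfl
      calc a ^ (i + 1) * b = a * (a ^ i * b) := by rw [pow_succ', mul_assoc]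
        _ = a * ι (d ^ i * dx ^ i.choose 2 * dxx ^ i.choose 3) * b * a ^ i := by rw [ih]; group
        _ = ι (c a (d ^ i * dx ^ i.choose 2 * dxx ^ i.choose 3)) * (a * b) * a ^ i := by
          rw [hc]; group
        _ = ι (c a (d ^ i * dx ^ i.choose 2 * dxx ^ i.choose 3) * d) * b * a ^ (i + 1) := by
          rw [hd, map_mul ι _ d, pow_succ' a i]; simp only [mul_assoc]
        _ = _ := by rw [hca]
  have hbn : ∀ n : ℕ, ∀ x, b ^ n * ι x = ι (c (b ^ n) x) * b ^ n := fun n x => hc _ _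
  have g1 : ∀ n : ℕ, c (b ^ n) dxx = dxx := by
    intro n
    induction n with
    | zero => simp
    | succ n ih => rw [pow_succ, map_mul, MulAut.mul_apply, hbxx, ih]
  have g2 : ∀ n : ℕ, c (b ^ n) dxy = dxy := by
    intro n
    induction n with
    | zero => simp
    | succ n ih => rw [pow_succ, map_mul, MulAut.mul_apply, hbxy, ih]
  have g3 : ∀ n : ℕ, c (b ^ n) dyy = dyy := by
    intro n
    induction n with
    | zero => simp
    | succ n ih => rw [pow_succ, map_mul, MulAut.mul_apply, hbyy, ih]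
  have g4 : ∀ n : ℕ, c (b ^ n) dx = dxy ^ n * dx := by
    intro n
    induction n with
    | zero => simp
    | succ n ih => rw [pow_succ b, map_mul, MulAut.mul_apply, hbx, map_mul, g2, ih, pow_succ' dxy, mul_assoc]
  have g5 : ∀ n : ℕ, c (b ^ n) dy = dyy ^ n * dy := by
    intro n
    induction n with
    | zero => simp
    | succ n ih => rw [pow_succ b, map_mul, MulAut.mul_apply, hby, map_mul, g3, ih, pow_succ' dyy, mul_assoc]
  have g6 : ∀ n : ℕ, c (b ^ n) d = dyy ^ n.choose 2 * dy ^ n * d := by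
    intro n
    induction n with
    | zero => simp
    | succ n ih =>
      rw [pow_succ b, map_mul, MulAut.mul_apply, hbd, map_mul, g5, ih,
        Nat.choose_succ_succ' n 1, Nat.choose_one_right, pow_add dyy, pow_succ dy]
      ac_rfl
  have hS : ∀ n : ℕ, (a * b) ^ n = ι (d ^ (n + 1).choose 2 * dx ^ (n + 1).choose 3
      * dy ^ (2 * (n + 1).choose 3) * dxx ^ (n + 1).choose 4
      * dxy ^ (3 * (n + 1).choose 4 + (n + 1).choose 3) * dyy ^ (3 * (n + 1).choose 4))
      * b ^ n * a ^ n := by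
    intro n
    induction n with
    | zero => simp [show Nat.choose 1 3 = 0 from rfl, show Nat.choose 1 4 = 0 from rfl]
    | succ n ih =>
      have k2 : (n + 1 + 1).choose 2 = (n + 1) + (n + 1).choose 2 := by
        rw [Nat.choose_succ_succ' (n + 1) 1, Nat.choose_one_right]
      have k3 : (n + 1 + 1).choose 3 = (n + 1).choose 2 + (n + 1).choose 3 := Nat.choose_succ_succ' _ _
      have k4 : (n + 1 + 1).choose 4 = (n + 1).choose 3 + (n + 1).choose 4 := Nat.choose_succ_succ' _ _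
      have m1 := nat1 n
      have m2 := nat2 n
      have m3 := nat3 n
      have hcb : c (b ^ n) (d ^ (n + 1) * dx ^ (n + 1).choose 2 * dxx ^ (n + 1).choose 3)
          = d ^ (n + 1) * dy ^ (2 * (n + 1).choose 2) * dyy ^ (3 * (n + 1).choose 3)
            * dx ^ (n + 1).choose 2 * dxy ^ (3 * (n + 1).choose 3 + (n + 1).choose 2)
            * dxx ^ (n + 1).choose 3 := by
        rw [map_mul, map_mul, map_pow (c (b ^ n)), map_pow (c (b ^ n)), map_pow (c (b ^ n)), g1, g4, g6,
          mul_pow, mul_pow, mul_pow,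
          ← pow_mul, ← pow_mul, ← pow_mul, ← m1, ← m2, ← m3, mul_comm (n + 1) n,
          mul_comm (n + 1) (n.choose 2)]
        ac_rfl
      have hex : (d ^ (n + 1).choose 2 * dx ^ (n + 1).choose 3
          * dy ^ (2 * (n + 1).choose 3) * dxx ^ (n + 1).choose 4
          * dxy ^ (3 * (n + 1).choose 4 + (n + 1).choose 3) * dyy ^ (3 * (n + 1).choose 4))
          * (d ^ (n + 1) * dy ^ (2 * (n + 1).choose 2) * dyy ^ (3 * (n + 1).choose 3)
            * dx ^ (n + 1).choose 2 * dxy ^ (3 * (n + 1).choose 3 + (n + 1).choose 2)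
            * dxx ^ (n + 1).choose 3)
          = d ^ (n + 1 + 1).choose 2 * dx ^ (n + 1 + 1).choose 3
          * dy ^ (2 * (n + 1 + 1).choose 3) * dxx ^ (n + 1 + 1).choose 4
          * dxy ^ (3 * (n + 1 + 1).choose 4 + (n + 1 + 1).choose 3)
          * dyy ^ (3 * (n + 1 + 1).choose 4) := by
        rw [k2, k3, k4]
        simp only [mul_add, pow_add]
        ac_rfl
      rw [← hex, ← hcb]
      have hDn := hD (n + 1)
      generalize d ^ (n + 1) * dx ^ (n + 1).choose 2 * dxx ^ (n + 1).choose 3 = E at hDn ⊢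
      generalize d ^ (n + 1).choose 2 * dx ^ (n + 1).choose 3
          * dy ^ (2 * (n + 1).choose 3) * dxx ^ (n + 1).choose 4
          * dxy ^ (3 * (n + 1).choose 4 + (n + 1).choose 3) * dyy ^ (3 * (n + 1).choose 4) = S at ih ⊢
      calc (a * b) ^ (n + 1) = (a * b) ^ n * (a * b) := pow_succ _ _
        _ = ι S * b ^ n * (a ^ (n + 1) * b) := by rw [ih, pow_succ a n]; simp only [mul_assoc]
        _ = ι S * (b ^ n * ι E) * b * a ^ (n + 1) := by rw [hDn]; simp only [mul_assoc]
        _ = ι (S * c (b ^ n) E) * b ^ (n + 1) * a ^ (n + 1) := by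
          rw [hbn, map_mul, pow_succ b n]; simp only [mul_assoc]
  have hDp : a ^ p * b = b * a ^ p := by
    have := hD p
    rw [f1, f2, f3] at this
    simpa using this
  have hcab : Commute (a ^ p) b := hDp
  have := hS p
  rw [e1, e2, mul_comm 2, pow_mul, e3, e4, pow_add, mul_comm 3, pow_mul, e6, e5, pow_mul, e7] at this
  simp only [one_pow, mul_one, map_one, one_mul] at this
  rw [this]
  exact ((hcab.pow_right p).eq).symm

/-- Proof. `A = L 0` is an abelian normal subgroup of exponent `p`, `α`, `β` = conjugation by `a`,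
`b` on `A` (they commute on `A` since `⁅a, b⁆ ∈ A`), `X = α - 1`, `Y = β - 1`; products of `k`
operators `X`, `Y` vanish on `A` (`htop`). Let `d = ⁅a, b⁆ = a b a⁻¹ b⁻¹`. Then
`a ^ i b a ^ (-i) b⁻¹ = ∑_{j < i} α ^ j d` (additive in `A`), so
`(ab) ^ p = (∏_{i = 1}^p a ^ i b a ^ (-i)) a ^ p = (∑_{0 ≤ j ≤ m ≤ p - 1} β ^ m α ^ j d) b ^ p a ^ p`.
With `β = 1 + Y`, `α = 1 + X` the sum is `∑_{r + s < k} (∑_{j ≤ m ≤ p - 1} C(m, r) C(j, s)) Y ^ r X ^ s d`
and for `r + s ≤ k - 1 ≤ 2` the number is divisible by `p` (`k + 2 ≤ p`; it is a polynomial in `m`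
of degree `r + s + 1 < p - 1` summed over all `m < p`; or case by case: `p (p + 1) / 2`,
`(p - 1) p (p + 1) / 3`, `C(p + 1, 3)`, ...). Likewise `a ^ p b a ^ (-p) b⁻¹ = ∑_{j < p} α ^ j d = 0`
(`C(p, s + 1)` is divisible by `p` for `s < k`), so `a ^ p` commutes with `b`. -/
theorem hpL {p k : ℕ} (hp : p.Prime) (hk : k ≤ 3) (hkp : k + 2 ≤ p) {H : Type*} [Group H]
    (L : ℕ → Subgroup H) (hn : (L 0).Normal) (hanti : Antitone L)
    (hL : ∀ r, ∀ x ∈ L r, ∀ g : H, ⁅g, x⁆ ∈ L (r + 1)) (htop : L k = ⊥)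
    (hcomm : ∀ x ∈ L 0, ∀ y ∈ L 0, x * y = y * x) (hexp : ∀ x ∈ L 0, x ^ p = 1)
    (a b : H) (hab : ⁅a, b⁆ ∈ L 0) : (a * b) ^ p = a ^ p * b ^ p := by
  let _ : CommGroup (L 0) := { (inferInstance : Group (L 0)) with
    mul_comm := fun x y => Subtype.ext (hcomm x x.2 y y.2) }
  have htop' : ∀ r, k ≤ r → ∀ x ∈ L r, x = 1 := by
    intro r hr x hx
    have := hanti hr hx
    rwa [htop, Subgroup.mem_bot] at this
  let c : H →* MulAut (L 0) := MulAut.conjNormal
  have hcv : ∀ g (x : L 0), ((c g x : L 0) : H) = g * x * g⁻¹ := fun g x => MulAut.conjNormal_apply g x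
  let K : H → L 0 → L 0 := fun g x => c g x * x⁻¹
  have hKv : ∀ g (x : L 0), ((K g x : L 0) : H) = ⁅g, (x : H)⁆ := by
    intro g x
    simp only [K, Subgroup.coe_mul, Subgroup.coe_inv, hcv, commutatorElement_def]
  have hKm : ∀ g (x : L 0), c g x = K g x * x := by
    intro g x
    simp only [K, inv_mul_cancel_right]
  let d : L 0 := ⟨⁅a, b⁆, hab⟩
  have hexp' : ∀ x : L 0, x ^ p = 1 := fun x => Subtype.ext (by
    rw [Subgroup.coe_pow, hexp x x.2, Subgroup.coe_one])
  have hdv : ∀ (x : L 0) (n : ℕ), p ∣ n → x ^ n = 1 := by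
    rintro x n ⟨m, rfl⟩
    rw [pow_mul, hexp', one_pow]
  have l1 : ∀ g (x : L 0), ((K g x : L 0) : H) ∈ L 1 := fun g x => by
    rw [hKv]; exact hL 0 _ x.2 g
  have l2 : ∀ g g' (x : L 0), ((K g (K g' x) : L 0) : H) ∈ L 2 := fun g g' x => by
    rw [hKv]; exact hL 1 _ (l1 g' x) g
  have l3 : ∀ g g' g'' (x : L 0), K g (K g' (K g'' x)) = 1 := fun g g' g'' x => by
    apply Subtype.ext
    rw [Subgroup.coe_one]
    refine htop' 3 hk _ ?_
    rw [hKv]; exact hL 2 _ (l2 g' g'' x) g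
  have hp2 := hp.two_le
  have ch : p = 2 ∨ p = 3 ∨ 5 ≤ p := by
    rcases Nat.lt_or_ge p 5 with h | h
    · have : p ≠ 4 := fun h4 => by rw [h4] at hp; revert hp; decide
      omega
    · exact Or.inr (Or.inr h)
  have hK : ∀ g (y : L 0) (i : ℕ), 1 < i → i ≤ 4 →
      (K g y) ^ (p + 1).choose i = 1 ∧ (K g y) ^ p.choose i = 1 := by
    intro g y i h1 h4
    by_cases h5 : 5 ≤ p
    · exact ⟨hdv _ _ (dvd_ch hp h1 (by omega)), hdv _ _ (hp.dvd_choose_self (by omega) (by omega))⟩
    · have hk1 : k ≤ 1 := by omega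
      have : K g y = 1 := Subtype.ext (htop' 1 hk1 _ (l1 g y))
      rw [this, one_pow, one_pow]
      exact ⟨rfl, rfl⟩
  have hd2 : d ^ (p + 1).choose 2 = 1 := by
    rcases ch with h | h | h
    · have : d = 1 := Subtype.ext (htop' 0 (by omega) _ d.2)
      rw [this, one_pow]
    · exact hdv _ _ (by subst h; decide)
    · exact hdv _ _ (dvd_ch hp (by norm_num) (by omega))
  refine core (T := L 0) (L 0).subtype c ?_ a b d (K a d) (K b d) (K a (K a d)) (K b (K a d))
    (K b (K b d)) ?_ (hKm _ _) (hKm _ _) ?_ (hKm _ _) (hKm _ _) (hKm _ _) ?_ ?_ ?_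
    hd2 (hK _ _ 3 (by norm_num) (by norm_num)).1 (hK _ _ 3 (by norm_num) (by norm_num)).1
    (hK _ _ 4 (by norm_num) (by norm_num)).1 (hK _ _ 3 (by norm_num) (by norm_num)).1
    (hK _ _ 4 (by norm_num) (by norm_num)).1 (hK _ _ 4 (by norm_num) (by norm_num)).1
    (hexp' _) (hK _ _ 2 (by norm_num) (by norm_num)).2 (hK _ _ 3 (by norm_num) (by norm_num)).2
  · intro g x
    simp only [Subgroup.subtype_apply, hcv]
    group
  · simp only [Subgroup.subtype_apply, d, commutatorElement_def]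
    group
  · rw [hKm, l3, one_mul]
  · rw [hKm, l3, one_mul]
  · rw [hKm, l3, one_mul]
  · rw [hKm, l3, one_mul]

end Pool.Agent.H77.SP
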