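import Pool.Agent.H77.SP.LemA
import Pool.Agent.H77.SP.Hall

/-!
# Exponent `p` in groups of class at most two which are generated by elements of order `p`
-/

set_option autoImplicit false

namespace Pool.Agent.H77.SP

open Subgroup Pool.Agent.H76.MB
open scoped commutatorElement

private theorem comm_ind {K Q : Type*} [Group K] [Group Q] (π : K →* Q) (S : Set K)
    (hS : closure S = ⊤) (h : ∀ s ∈ S, ∀ t ∈ S, Commute (π s) (π t)) (x y : K) :
    Commute (π x) (π y) := by
  have h1 : ∀ s ∈ S, ∀ y : K, Commute (π s) (π y) := by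
    intro s hs y
    have hy : y ∈ closure S := by rw [hS]; exact mem_top y
    induction hy using closure_induction with
    | mem t ht => exact h s hs t ht
    | one => rw [map_one]; exact Commute.one_right _
    | mul a b _ _ ha hb => rw [map_mul]; exact ha.mul_right hb
    | inv a _ ha => rw [map_inv]; exact ha.inv_right
  have hx : x ∈ closure S := by rw [hS]; exact mem_top x
  induction hx using closure_induction with
  | mem t ht => exact h1 t ht y
  | one => rw [map_one]; exact Commute.one_left _
  | mul a b _ _ ha hb => rw [map_mul]; exact ha.mul_left hb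
  | inv a _ ha => rw [map_inv]; exact ha.inv_left

/-- a group of class at most two, generated by elements of order dividing the odd prime `p` whose
commutators have order dividing `p`, has exponent dividing `p` -/
theorem exp_of_class {p : ℕ} (hp : p.Prime) (hodd : p ≠ 2) {K : Type*} [Group K] (h2 : lc K 2 = ⊥)
    (S : Set K) (hS : closure S = ⊤) (hSp : ∀ s ∈ S, s ^ p = 1)
    (hSc : ∀ s ∈ S, ∀ t ∈ S, (cm s t) ^ p = 1) (z : K) : z ^ p = 1 := by
  have hcomm : ∀ x ∈ lc K 1, ∀ y ∈ lc K 1, x * y = y * x := by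
    intro x hx y hy
    have h1 : cm x y ∈ lc K (1 + 1) := cm_mem_lc_succ hx y
    rw [show 1 + 1 = 2 from rfl, h2, mem_bot] at h1
    exact (cm_eq_one.mp h1).eq
  have hn := lc_normal K 1
  let E : Subgroup K :=
    { carrier := {z | z ∈ lc K 1 ∧ z ^ p = 1}
      mul_mem' := by
        rintro a b ⟨ha, ha'⟩ ⟨hb, hb'⟩
        refine ⟨mul_mem ha hb, ?_⟩
        have : Commute a b := hcomm a ha b hb
        rw [this.mul_pow, ha', hb', one_mul]
      one_mem' := ⟨one_mem _, one_pow _⟩
      inv_mem' := by
        rintro a ⟨ha, ha'⟩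
        exact ⟨inv_mem ha, by rw [inv_pow, ha', inv_one]⟩ }
  have hE : E.Normal := by
    constructor
    rintro a ⟨ha, ha'⟩ g
    refine ⟨hn.conj_mem a ha g, ?_⟩
    rw [conj_pow, ha', mul_one, mul_inv_cancel]
  have hq : ∀ x y : K, Commute (QuotientGroup.mk' E x) (QuotientGroup.mk' E y) := by
    refine comm_ind (QuotientGroup.mk' E) S hS fun s hs t ht => ?_
    have h1 : cm s t ∈ E := ⟨cm_mem_lc_one s t, hSc s hs t ht⟩
    have h2' : QuotientGroup.mk' E (cm s t) = 1 := (QuotientGroup.eq_one_iff _).2 h1
    rw [cm_map] at h2'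
    exact cm_eq_one.mp h2'
  have hexp : ∀ x ∈ lc K 1, x ^ p = 1 := by
    intro x hx
    have hle : lc K 1 ≤ E := by
      change ⁅lc K 0, (⊤ : Subgroup K)⁆ ≤ E
      rw [commutator_le]
      intro g _ h _
      have h1 := hq g h
      have h2 : QuotientGroup.mk' E ⁅g, h⁆ = 1 := by
        rw [map_commutatorElement]
        exact commutatorElement_eq_one_iff_commute.2 h1
      exact (QuotientGroup.eq_one_iff _).1 h2
    exact (hle hx).2
  have hmul : ∀ a b : K, (a * b) ^ p = a ^ p * b ^ p := by
    intro a b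
    refine hpL (k := 1) hp (by norm_num) (by
      have := hp.two_le
      omega) (fun r => lc K (r + 1)) hn (fun r s hrs => lc_anti (by omega)) ?_ h2 hcomm hexp a b ?_
    · intro r x hx g
      have h1 : cm x⁻¹ g⁻¹ ∈ lc K (r + 1 + 1) := cm_mem_lc_succ (inv_mem hx) g⁻¹
      have h2 : ⁅g, x⁆ = (cm x⁻¹ g⁻¹)⁻¹ := by
        rw [cm_inv, cm_eq_commutator, inv_inv, inv_inv]
      rw [h2]
      exact inv_mem h1
    · have h2 : ⁅a, b⁆ = cm a⁻¹ b⁻¹ := by
        rw [cm_eq_commutator, inv_inv, inv_inv]
      rw [h2]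
      exact cm_mem_lc_one _ _
  have hz : z ∈ closure S := by rw [hS]; exact mem_top z
  induction hz using closure_induction with
  | mem t ht => exact hSp t ht
  | one => exact one_pow _
  | mul a b _ _ ha hb => rw [hmul, ha, hb, one_mul]
  | inv a _ ha => rw [inv_pow, ha, inv_one]

/-- a finite subset of a sandwich set of exponent `p` which generates a group of class two -/
theorem exp2 {p : ℕ} (hp : p.Prime) (hodd : p ≠ 2) {G : Type*} [Group G] {X : Set G} (hS : Sand X)
    (hX : ∀ x ∈ X, x ^ p = 1) (s : Finset G) (hs : ∀ b ∈ s, b ∈ X)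
    (h2 : lc (closure (s : Set G)) 2 = ⊥) (z : G) (hz : z ∈ closure (s : Set G)) : z ^ p = 1 := by
  have h4 := exp_of_class hp hodd h2 ((closure (s : Set G)).subtype ⁻¹' (s : Set G))
    (closure_closure_coe_preimage (k := (s : Set G)))
    (fun t ht => Subtype.ext (by
      rw [Subgroup.coe_pow, Subgroup.coe_one]
      exact hX _ (hs _ (by exact_mod_cast ht))))
    (fun t ht u hu => Subtype.ext (by
      have e1 : ((cm t u : closure (s : Set G)) : G) = cm (t : G) (u : G) :=
        cm_map (closure (s : Set G)).subtype t u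
      rw [Subgroup.coe_pow, Subgroup.coe_one, e1]
      exact hX _ (hS.cm_mem _ (hs _ (by exact_mod_cast ht)) _ (hs _ (by exact_mod_cast hu)))))
    ⟨z, hz⟩
  have h6 := congrArg (fun w : closure (s : Set G) => (w : G)) h4
  simpa using h6

end Pool.Agent.H77.SP
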