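import Pool.Agent.H77.SP.LemA

/-!
# Polarisation of the law, which is assumed for first arguments in a set only
-/

set_option autoImplicit false

namespace Pool.Agent.H77.SP

open Subgroup Pool.Agent.H76.MB

/-- Formal polarisation. -/
theorem polar_formal' {K A : Type*} [Mul K] [AddCommGroup A] (F : K → K → K → K → K → A)
    (h1 : ∀ a a' b c d e, F (a * a') b c d e = F a b c d e + F a' b c d e)
    (h2 : ∀ a b b' c d e, F a (b * b') c d e = F a b c d e + F a b' c d e)
    (h3 : ∀ a b c c' d e, F a b (c * c') d e = F a b c d e + F a b c' d e)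
    (h4 : ∀ a b c d d' e, F a b c (d * d') e = F a b c d e + F a b c d' e)
    (h5 : ∀ a b c d e e', F a b c d (e * e') = F a b c d e + F a b c d e')
    (S : Set K) (h : ∀ x ∈ S, ∀ y, F x y x y x = 0) (a b c p q : K) (ma : a ∈ S) (mb : b ∈ S)
    (mc : c ∈ S) (mab : a * b ∈ S) (mac : a * c ∈ S) (mbc : b * c ∈ S) (mabc : a * b * c ∈ S) :
    F a p b q c + F a q b p c + (F a p c q b + F a q c p b) + (F b p a q c + F b q a p c) +
      (F b p c q a + F b q c p a) + (F c p a q b + F c q a p b) +
      (F c p b q a + F c q b p a) = 0 := by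
  have g : ∀ x ∈ S, F x p x q x + F x q x p x = 0 := by
    intro x hx
    have e := h x hx (p * q)
    rw [h2, h4, h4, h x hx p, h x hx q] at e
    rw [← e]; abel
  -- first polarisation in x
  have g2 : ∀ x y, x ∈ S → y ∈ S → x * y ∈ S → (F x p x q y + F x q x p y) + (F x p y q x + F x q y p x) +
      (F y p x q x + F y q x p x) + ((F y p y q x + F y q y p x) + (F y p x q y + F y q x p y) +
      (F x p y q y + F x q y p y)) = 0 := by
    intro x y hx hy hxy
    have e := g (x * y) hxy
    simp only [h1, h3, h5] at e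
    have ex := g x hx
    have ey := g y hy
    have key : (F x p x q y + F x q x p y) + (F x p y q x + F x q y p x) +
      (F y p x q x + F y q x p x) + ((F y p y q x + F y q y p x) + (F y p x q y + F y q x p y) +
      (F x p y q y + F x q y p y)) = 0 - (F x p x q x + F x q x p x) -
        (F y p y q y + F y q y p y) := by
      rw [← e]; abel
    rw [key, ex, ey]; abel
  have e1 := g2 (a * b) c mab mc mabc
  have e2 := g2 a c ma mc mac
  have e3 := g2 b c mb mc mbc
  simp only [h1, h3, h5] at e1
  have key : F a p b q c + F a q b p c + (F a p c q b + F a q c p b) +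
      (F b p a q c + F b q a p c) +
      (F b p c q a + F b q c p a) + (F c p a q b + F c q a p b) +
      (F c p b q a + F c q b p a) = 0 - 0 - 0 := by
    nth_rewrite 1 [← e1]
    nth_rewrite 1 [← e2]
    rw [← e3]
    abel
  rw [key]; abel

theorem polar' {K : Type*} [Group K] (h5 : lc K 5 = ⊥) (S : Set K) (hL : LawP S) (a b c p q : K)
    (ma : a ∈ S) (mb : b ∈ S) (mc : c ∈ S) (mab : a * b ∈ S) (mac : a * c ∈ S) (mbc : b * c ∈ S)
    (mabc : a * b * c ∈ S) :
    F5 a p b q c * F5 a q b p c * (F5 a p c q b * F5 a q c p b) *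
      (F5 b p a q c * F5 b q a p c) * (F5 b p c q a * F5 b q c p a) *
      (F5 c p a q b * F5 c q a p b) * (F5 c p b q a * F5 c q b p a) = 1 := by
  let _ : CommGroup (center K) :=
    { (inferInstance : Group (center K)) with
      mul_comm := fun x y => Subtype.ext ((mem_center_iff.mp y.2) x) }
  let F : K → K → K → K → K → Additive (center K) := fun a b c d e =>
    Additive.ofMul ⟨F5 a b c d e, F5_mem_center h5 a b c d e⟩
  have h := polar_formal' F
    (fun a a' b c d e => congrArg Additive.ofMul (Subtype.ext (F5_mul1 h5 a a' b c d e)))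
    (fun a b b' c d e => congrArg Additive.ofMul (Subtype.ext (F5_mul2 h5 a b b' c d e)))
    (fun a b c c' d e => congrArg Additive.ofMul (Subtype.ext (F5_mul3 h5 a b c c' d e)))
    (fun a b c d d' e => congrArg Additive.ofMul (Subtype.ext (F5_mul4 h5 a b c d d' e)))
    (fun a b c d e e' => congrArg Additive.ofMul (Subtype.ext (F5_mul5 h5 a b c d e e')))
    S (fun x hx y => congrArg Additive.ofMul (Subtype.ext (by
      change F5 x y x y x = 1
      unfold F5
      apply cm_eq_one.mpr
      have h1 := hL x hx y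
      rw [cj_eq (cm x y) x] at h1
      have h2 : cm (cm x y) x = (cm x y)⁻¹ * (cm x y * cm (cm x y) x) := by group
      rw [h2]
      exact (Commute.refl _).inv_right.mul_right h1))) a b c p q ma mb mc mab mac mbc mabc
  have h' := congrArg (fun z => ((Additive.toMul z : center K) : K)) h
  exact h'

/-- polarisation in a subgroup of class at most five -/
theorem polar_sub' {G : Type*} [Group G] {P : Set G} (hL : LawP P) (K : Subgroup G) (h5 : lc K 5 = ⊥)
    {a b c p q : G} (ha : a ∈ K) (hb : b ∈ K) (hc : c ∈ K) (hp : p ∈ K) (hq : q ∈ K)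
    (ma : a ∈ P) (mb : b ∈ P) (mc : c ∈ P) (mab : a * b ∈ P) (mac : a * c ∈ P) (mbc : b * c ∈ P)
    (mabc : a * b * c ∈ P) :
    F5 a p b q c * F5 a q b p c * (F5 a p c q b * F5 a q c p b) *
      (F5 b p a q c * F5 b q a p c) * (F5 b p c q a * F5 b q c p a) *
      (F5 c p a q b * F5 c q a p b) * (F5 c p b q a * F5 c q b p a) = 1 := by
  have hLK : LawP {x : K | (x : G) ∈ P} := by
    intro x hx y
    have h := hL (x : G) hx (y : G)
    have e1 : ((cm x y : K) : G) = cm (x : G) (y : G) := cm_map K.subtype x y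
    have e2 : ((cj (cm x y) x : K) : G) = cj (cm (x : G) (y : G)) (x : G) := by
      unfold cj cm; simp
    apply Subtype.ext
    change ((cm x y : K) : G) * ((cj (cm x y) x : K) : G) =
      ((cj (cm x y) x : K) : G) * ((cm x y : K) : G)
    rw [e2, e1]
    exact h.eq
  have h := polar' h5 _ hLK ⟨a, ha⟩ ⟨b, hb⟩ ⟨c, hc⟩ ⟨p, hp⟩ ⟨q, hq⟩ ma mb mc mab mac mbc mabc
  have h' := congrArg (fun z : K => (z : G)) h
  simp only [Subgroup.coe_mul, F5_map, Subgroup.coe_one] at h'
  exact h'


/-- Formal polarisation with products of two elements only. -/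
theorem polar2_formal {K A : Type*} [Group K] [AddCommGroup A] (F : K → K → K → K → K → A)
    (h1 : ∀ a a' b c d e, F (a * a') b c d e = F a b c d e + F a' b c d e)
    (h2 : ∀ a b b' c d e, F a (b * b') c d e = F a b c d e + F a b' c d e)
    (h3 : ∀ a b c c' d e, F a b (c * c') d e = F a b c d e + F a b c' d e)
    (h4 : ∀ a b c d d' e, F a b c (d * d') e = F a b c d e + F a b c d' e)
    (h5 : ∀ a b c d e e', F a b c d (e * e') = F a b c d e + F a b c d e')
    (S : Set K) (h : ∀ x ∈ S, ∀ y, F x y x y x = 0) (a b p q : K) (ma : a ∈ S) (mb : b ∈ S)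
    (mb' : b⁻¹ ∈ S) (mab : a * b ∈ S) (mab' : a * b⁻¹ ∈ S) :
    (F a p a q b + F a q a p b + (F a p b q a + F a q b p a) + (F b p a q a + F b q a p a)) +
      (F a p a q b + F a q a p b + (F a p b q a + F a q b p a) + (F b p a q a + F b q a p a)) = 0 := by
  have i1 : ∀ a b c d e, F a⁻¹ b c d e = -F a b c d e := by
    intro a b c d e
    have e0 := h1 1 1 b c d e
    rw [mul_one] at e0
    have e1 := h1 a⁻¹ a b c d e
    rw [inv_mul_cancel] at e1
    have e2 : F 1 b c d e = 0 := by
      have : F 1 b c d e + F 1 b c d e = F 1 b c d e + 0 := by rw [add_zero]; exact e0.symm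
      exact add_left_cancel this
    rw [e2] at e1
    exact eq_neg_of_add_eq_zero_left e1.symm
  have i3 : ∀ a b c d e, F a b c⁻¹ d e = -F a b c d e := by
    intro a b c d e
    have e0 := h3 a b 1 1 d e
    rw [mul_one] at e0
    have e1 := h3 a b c⁻¹ c d e
    rw [inv_mul_cancel] at e1
    have e2 : F a b 1 d e = 0 := by
      have : F a b 1 d e + F a b 1 d e = F a b 1 d e + 0 := by rw [add_zero]; exact e0.symm
      exact add_left_cancel this
    rw [e2] at e1
    exact eq_neg_of_add_eq_zero_left e1.symm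
  have i5 : ∀ a b c d e, F a b c d e⁻¹ = -F a b c d e := by
    intro a b c d e
    have e0 := h5 a b c d 1 1
    rw [mul_one] at e0
    have e1 := h5 a b c d e⁻¹ e
    rw [inv_mul_cancel] at e1
    have e2 : F a b c d 1 = 0 := by
      have : F a b c d 1 + F a b c d 1 = F a b c d 1 + 0 := by rw [add_zero]; exact e0.symm
      exact add_left_cancel this
    rw [e2] at e1
    exact eq_neg_of_add_eq_zero_left e1.symm
  have g : ∀ x ∈ S, F x p x q x + F x q x p x = 0 := by
    intro x hx
    have e := h x hx (p * q)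
    rw [h2, h4, h4, h x hx p, h x hx q] at e
    rw [← e]; abel
  have g2 : ∀ x y, x ∈ S → y ∈ S → x * y ∈ S → (F x p x q y + F x q x p y) +
      (F x p y q x + F x q y p x) +
      (F y p x q x + F y q x p x) + ((F y p y q x + F y q y p x) + (F y p x q y + F y q x p y) +
      (F x p y q y + F x q y p y)) = 0 := by
    intro x y hx hy hxy
    have e := g (x * y) hxy
    simp only [h1, h3, h5] at e
    have ex := g x hx
    have ey := g y hy
    have key : (F x p x q y + F x q x p y) + (F x p y q x + F x q y p x) +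
      (F y p x q x + F y q x p x) + ((F y p y q x + F y q y p x) + (F y p x q y + F y q x p y) +
      (F x p y q y + F x q y p y)) = 0 - (F x p x q x + F x q x p x) -
        (F y p y q y + F y q y p y) := by
      rw [← e]; abel
    rw [key, ex, ey]; abel
  have e1 := g2 a b ma mb mab
  have e2 := g2 a b⁻¹ ma mb' mab'
  simp only [i1, i3, i5, neg_neg] at e2
  have key : (F a p a q b + F a q a p b + (F a p b q a + F a q b p a) + (F b p a q a + F b q a p a)) +
      (F a p a q b + F a q a p b + (F a p b q a + F a q b p a) + (F b p a q a + F b q a p a)) =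
      0 - 0 := by
    nth_rewrite 1 [← e1]
    rw [← e2]
    abel
  rw [key]; abel

theorem polar2 {K : Type*} [Group K] (h5 : lc K 5 = ⊥) (S : Set K) (hL : LawP S) (a b p q : K)
    (ma : a ∈ S) (mb : b ∈ S) (mb' : b⁻¹ ∈ S) (mab : a * b ∈ S) (mab' : a * b⁻¹ ∈ S) :
    (F5 a p a q b * F5 a q a p b * (F5 a p b q a * F5 a q b p a) * (F5 b p a q a * F5 b q a p a)) *
      (F5 a p a q b * F5 a q a p b * (F5 a p b q a * F5 a q b p a) *
        (F5 b p a q a * F5 b q a p a)) = 1 := by
  let _ : CommGroup (center K) :=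
    { (inferInstance : Group (center K)) with
      mul_comm := fun x y => Subtype.ext ((mem_center_iff.mp y.2) x) }
  let F : K → K → K → K → K → Additive (center K) := fun a b c d e =>
    Additive.ofMul ⟨F5 a b c d e, F5_mem_center h5 a b c d e⟩
  have h := polar2_formal F
    (fun a a' b c d e => congrArg Additive.ofMul (Subtype.ext (F5_mul1 h5 a a' b c d e)))
    (fun a b b' c d e => congrArg Additive.ofMul (Subtype.ext (F5_mul2 h5 a b b' c d e)))
    (fun a b c c' d e => congrArg Additive.ofMul (Subtype.ext (F5_mul3 h5 a b c c' d e)))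
    (fun a b c d d' e => congrArg Additive.ofMul (Subtype.ext (F5_mul4 h5 a b c d d' e)))
    (fun a b c d e e' => congrArg Additive.ofMul (Subtype.ext (F5_mul5 h5 a b c d e e')))
    S (fun x hx y => congrArg Additive.ofMul (Subtype.ext (by
      change F5 x y x y x = 1
      unfold F5
      apply cm_eq_one.mpr
      have h1 := hL x hx y
      rw [cj_eq (cm x y) x] at h1
      have h2 : cm (cm x y) x = (cm x y)⁻¹ * (cm x y * cm (cm x y) x) := by group
      rw [h2]
      exact (Commute.refl _).inv_right.mul_right h1))) a b p q ma mb mb' mab mab'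
  have h' := congrArg (fun z => ((Additive.toMul z : center K) : K)) h
  exact h'

/-- the two-variable polarisation in a subgroup of class at most five -/
theorem polar2_sub {G : Type*} [Group G] {P : Set G} (hL : LawP P) (K : Subgroup G)
    (h5 : lc K 5 = ⊥) {a b p q : G} (ha : a ∈ K) (hb : b ∈ K) (hp : p ∈ K) (hq : q ∈ K)
    (ma : a ∈ P) (mb : b ∈ P) (mb' : b⁻¹ ∈ P) (mab : a * b ∈ P) (mab' : a * b⁻¹ ∈ P) :
    (F5 a p a q b * F5 a q a p b * (F5 a p b q a * F5 a q b p a) * (F5 b p a q a * F5 b q a p a)) *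
      (F5 a p a q b * F5 a q a p b * (F5 a p b q a * F5 a q b p a) *
        (F5 b p a q a * F5 b q a p a)) = 1 := by
  have hLK : LawP {x : K | (x : G) ∈ P} := by
    intro x hx y
    have h := hL (x : G) hx (y : G)
    have e1 : ((cm x y : K) : G) = cm (x : G) (y : G) := cm_map K.subtype x y
    have e2 : ((cj (cm x y) x : K) : G) = cj (cm (x : G) (y : G)) (x : G) := by
      unfold cj cm; simp
    apply Subtype.ext
    change ((cm x y : K) : G) * ((cj (cm x y) x : K) : G) =
      ((cj (cm x y) x : K) : G) * ((cm x y : K) : G)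
    rw [e2, e1]
    exact h.eq
  have h := polar2 h5 _ hLK ⟨a, ha⟩ ⟨b, hb⟩ ⟨p, hp⟩ ⟨q, hq⟩ ma mb mb' mab mab'
  have h' := congrArg (fun z : K => (z : G)) h
  simp only [Subgroup.coe_mul, F5_map, Subgroup.coe_one] at h'
  exact h'

end Pool.Agent.H77.SP
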