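import Pool.Agent.H77.SP.Exp
import Pool.Agent.H77.SP.Polar
import Pool.Agent.H76.MB.Fin

/-!
# Sandwich sets of odd prime exponent, with the law for first arguments of order `p` only
-/

set_option autoImplicit false

namespace Pool.Agent.H77.SP

open Subgroup Pool.Agent.H76.MB

variable {G : Type*} [Group G] {X : Set G} {p : ℕ}

/-- `Q(3)`: the law is needed for products of two elements of `X` only. -/
theorem Q_three (hp : p.Prime) (hodd : p ≠ 2) (hG : OddG G) (hL : LawP {z : G | z ^ p = 1}) (hS : Sand X)
    (hX : ∀ x ∈ X, x ^ p = 1) (hQ : ∀ m < 3, Q X m) : Q X 3 := by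
  classical
  intro x hx l hl hlen
  obtain ⟨c, d, k, rfl⟩ := List.length_eq_three.mp hlen
  have hc : c ∈ X := hl c (by simp)
  have hd : d ∈ X := hl d (by simp)
  have hk : k ∈ X := hl k (by simp)
  have hs5 : lc (closure (({x, c, d, k} : Finset G) : Set G)) 5 = ⊥ := by
    apply Sand.class_four hG hS hQ
    · intro b hb
      simp only [Finset.mem_insert, Finset.mem_singleton] at hb
      rcases hb with rfl | rfl | rfl | rfl <;> assumption
    · exact Finset.card_le_four
  have hK : ∀ {g : G}, g ∈ ({x, c, d, k} : Finset G) →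
      g ∈ closure (({x, c, d, k} : Finset G) : Set G) := fun hg =>
    subset_closure (by exact_mod_cast hg)
  have hs2 : ∀ b ∈ ({x, k} : Finset G), b ∈ X := by
    intro b hb
    simp only [Finset.mem_insert, Finset.mem_singleton] at hb
    rcases hb with rfl | rfl <;> assumption
  have hclass : lc (closure (({x, k} : Finset G) : Set G)) 2 = ⊥ := by
    have h1 := Sand.class_of_Q hS (M := 1) (fun m hm => hQ m (by omega)) {x, k} hs2
      Finset.card_le_two
    have h2 := lc_anti (G := closure (({x, k} : Finset G) : Set G))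
      (Finset.card_le_two : ({x, k} : Finset G).card ≤ 2)
    rw [h1] at h2
    exact le_bot_iff.mp h2
  have hexp : ∀ z ∈ closure (({x, k} : Finset G) : Set G), z ^ p = 1 := fun z hz =>
    exp2 hp hodd hS hX {x, k} hs2 hclass z hz
  have mx : x ∈ closure (({x, k} : Finset G) : Set G) := subset_closure (by simp)
  have mk : k ∈ closure (({x, k} : Finset G) : Set G) := subset_closure (by simp)
  have hpol := polar2_sub hL (closure (({x, c, d, k} : Finset G) : Set G)) hs5 (a := x) (b := k)
    (p := c) (q := d) (hK (by simp)) (hK (by simp)) (hK (by simp)) (hK (by simp))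
    (hexp _ mx) (hexp _ mk) (hexp _ (inv_mem mk)) (hexp _ (mul_mem mx mk))
    (hexp _ (mul_mem mx (inv_mem mk)))
  set g := gam x [c, d, k] with hg
  have odd1 : ((-1 : ℤ) ^ 1) = -1 := by norm_num
  have kill : ∀ a b : G, cm a b = 1 → cm a b⁻¹ = 1 := by
    intro a b h
    exact cm_eq_one.mpr (cm_eq_one.mp h).inv_right
  have kill' : ∀ a b : G, b = 1 → cm a b = 1 := by
    intro a b h
    rw [h]; exact cm_eq_one.mpr (Commute.one_right a)
  have p2 : ([d, c, k] : List G).Perm [c, d, k] := List.Perm.swap c d [k]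
  have e1 : F5 x c x d k = g⁻¹ := by
    have := Sand.rel_perm hG hS (by omega) hQ hx (B := [c]) (C := [d, k]) (l := [c, d, k])
      (by simp [hc]) (by simp [hd, hk]) (by simp) (List.Perm.refl _)
    rw [List.length_singleton, odd1, zpow_neg_one] at this
    exact this
  have e2 : F5 x d x c k = g⁻¹ := by
    have := Sand.rel_perm hG hS (by omega) hQ hx (B := [d]) (C := [c, k]) (l := [c, d, k])
      (by simp [hd]) (by simp [hc, hk]) (by simp) p2
    rw [List.length_singleton, odd1, zpow_neg_one] at this
    exact this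
  have gen3 : ∀ y z : G, y ∈ X → z ∈ X → F5 x y k z x = 1 := by
    intro y z hy hz
    have hkz : cm k z ∈ X := hS.cm_mem k hk z hz
    have := Sand.rel_lt hG hS hQ hx (B := [y]) (C := [cm k z]) (by simp [hy])
      (by simp [hkz]) (by simp)
    have h1 : F5 x y k z x = cm (itc x [y]) (itc x [cm k z])⁻¹ := by
      unfold F5
      change cm (cm x y) (cm (cm k z) x) = cm (cm x y) (cm x (cm k z))⁻¹
      rw [cm_inv]
    rw [h1]
    exact kill _ _ this
  have gen9 : ∀ y z : G, z ∈ X → F5 k y x z x = 1 := by
    intro y z hz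
    unfold F5
    exact kill' _ _ (cm_eq_one.mpr (hS.c2 x hx z hz).1.symm)
  rw [e1, e2, gen3 c d hc hd, gen3 d c hd hc, gen9 c d hd, gen9 d c hc] at hpol
  have hpol' : (g ^ 4)⁻¹ = 1 := by
    rw [← hpol]; group
  exact eq_one_of_four hG (inv_eq_one.mp hpol')

/-- Odd `N ≥ 5`. -/
theorem Q_odd' (hp : p.Prime) (hodd : p ≠ 2) (hG : OddG G) (hL : LawP {z : G | z ^ p = 1}) (hS : Sand X)
    (hX : ∀ x ∈ X, x ^ p = 1) {N : ℕ} (hN : Odd N) (hN3 : 5 ≤ N)
    (hQ : ∀ m < N, Q X m) : Q X N := by
  classical
  intro x hx l hl hlen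
  -- split l
  obtain ⟨B, T, hBT, hBlen, hTlen⟩ : ∃ B T : List G, l = B ++ T ∧ B.length = N - 3 ∧
      T.length = 3 :=
    ⟨l.take (N - 3), l.drop (N - 3), (List.take_append_drop _ _).symm,
      by rw [List.length_take]; omega, by rw [List.length_drop]; omega⟩
  obtain ⟨c, d, k, rfl⟩ : ∃ c d k : G, T = [c, d, k] := by
    rcases T with _ | ⟨c, _ | ⟨d, _ | ⟨k, _ | ⟨k', T⟩⟩⟩⟩ <;> simp at hTlen
    exact ⟨c, d, k, rfl⟩
  subst hBT
  have hB : ∀ b ∈ B, b ∈ X := fun b hb => hl b (by simp [hb])
  have hc : c ∈ X := hl c (by simp)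
  have hd : d ∈ X := hl d (by simp)
  have hk : k ∈ X := hl k (by simp)
  set u := itc x B with hu
  have huX : u ∈ X := hS.itc_mem hx hB
  have hBeven : Even B.length := by
    rw [hBlen]
    obtain ⟨m, hm⟩ := hN
    exact ⟨m - 1, by omega⟩
  -- class at most five
  obtain ⟨s, hs5, hxs, hus, hcs, hds, hks⟩ : ∃ s : Finset G, lc (closure (s : Set G)) 5 = ⊥ ∧
      x ∈ s ∧ u ∈ s ∧ c ∈ s ∧ d ∈ s ∧ k ∈ s := by
    · refine ⟨{x, u, c, d, k}, ?_, by simp, by simp, by simp, by simp, by simp⟩
      have hcard : ({x, u, c, d, k} : Finset G).card ≤ 5 := Finset.card_le_five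
      have h1 := Sand.class_of_Q hS (M := 4) (fun m hm => hQ m (by
          obtain ⟨m', hm'⟩ := hN; omega)) {x, u, c, d, k} (by
        intro b hb
        simp only [Finset.mem_insert, Finset.mem_singleton] at hb
        rcases hb with rfl | rfl | rfl | rfl | rfl <;> assumption) hcard
      have h2 := lc_anti (G := closure (({x, u, c, d, k} : Finset G) : Set G)) hcard
      rw [h1] at h2
      exact le_bot_iff.mp h2
  have hK : ∀ {g : G}, g ∈ s → g ∈ closure (s : Set G) := fun hg =>
    subset_closure (by exact_mod_cast hg)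
  have hBl : B.length + 2 < N := by rw [hBlen]; omega
  have fxu : cm x u = 1 := hQ B.length (by omega) x hx B hB rfl
  have fxk := hS.c2 x hx k hk
  have fuk := hS.c2 u huX k hk
  have fxku : cm (cm x k) u = 1 := by
    have := Sand.rel_lt hG hS hQ hx (B := [k]) (C := B) (by simp [hk]) hB (by simp; omega)
    exact this
  have fukx : cm (cm u k) x = 1 := by
    have h1 : gam x (B ++ [k]) = 1 := hQ (B ++ [k]).length (by simp; omega) x hx _ (by
      intro b hb
      rcases List.mem_append.mp hb with h | h
      · exact hB b h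
      · rw [List.mem_singleton.mp h]; exact hk) rfl
    have h2 : cm (cm u k) x = (gam x (B ++ [k]))⁻¹ := by
      unfold gam
      rw [cm_inv, itc_snoc, ← hu]
    rw [h2, h1, inv_one]
  have hclass : lc (closure (({x, u, k} : Finset G) : Set G)) 2 = ⊥ := by
    apply lc_closure
    intro z hz l hl hlen
    obtain ⟨b, c', rfl⟩ := List.length_eq_two.mp hlen
    have hb := hl b (by simp)
    have hc' := hl c' (by simp)
    change cm (cm z b) c' = 1
    apply cm_eq_one.mpr
    have g1 : Commute (cm x k) x := fxk.1.symm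
    have g2 : Commute (cm x k) k := fxk.2.symm
    have g3 : Commute (cm x k) u := cm_eq_one.mp fxku
    have g4 : Commute (cm u k) u := fuk.1.symm
    have g5 : Commute (cm u k) k := fuk.2.symm
    have g6 : Commute (cm u k) x := cm_eq_one.mp fukx
    have i1 : cm k x = (cm x k)⁻¹ := (cm_inv x k).symm
    have i2 : cm k u = (cm u k)⁻¹ := (cm_inv u k).symm
    have i3 : cm u x = 1 := by rw [← cm_inv, fxu, inv_one]
    have i4 : ∀ y : G, cm y y = 1 := fun y => cm_eq_one.mpr (Commute.refl y)
    simp only [Finset.coe_insert, Finset.coe_singleton, Set.mem_insert_iff,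
      Set.mem_singleton_iff] at hz hb hc'
    have main : ∀ y : G, y = x ∨ y = u ∨ y = k →
        Commute (cm x k) y ∧ Commute (cm u k) y := by
      rintro y (rfl | rfl | rfl)
      · exact ⟨g1, g6⟩
      · exact ⟨g3, g4⟩
      · exact ⟨g2, g5⟩
    obtain ⟨m1, m2⟩ := main c' hc'
    rcases hz with hz | hz | hz <;> rcases hb with hb | hb | hb <;> rw [hz, hb]
    · rw [i4]; exact Commute.one_left _
    · rw [fxu]; exact Commute.one_left _
    · exact m1
    · rw [i3]; exact Commute.one_left _
    · rw [i4]; exact Commute.one_left _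
    · exact m2
    · rw [i1]; exact m1.inv_left
    · rw [i2]; exact m2.inv_left
    · rw [i4]; exact Commute.one_left _
  have hexp : ∀ z ∈ closure (({x, u, k} : Finset G) : Set G), z ^ p = 1 := fun z hz =>
    exp2 hp hodd hS hX {x, u, k} (by
      intro b hb
      simp only [Finset.mem_insert, Finset.mem_singleton] at hb
      rcases hb with rfl | rfl | rfl <;> assumption) hclass z hz
  have mx : x ∈ closure (({x, u, k} : Finset G) : Set G) := subset_closure (by simp)
  have mu : u ∈ closure (({x, u, k} : Finset G) : Set G) := subset_closure (by simp)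
  have mk : k ∈ closure (({x, u, k} : Finset G) : Set G) := subset_closure (by simp)
  have hpol := polar_sub' hL (closure (s : Set G)) hs5 (hK hxs) (hK hus) (hK hks) (hK hcs) (hK hds)
    (hexp _ mx) (hexp _ mu) (hexp _ mk) (hexp _ (mul_mem mx mu)) (hexp _ (mul_mem mx mk))
    (hexp _ (mul_mem mu mk)) (hexp _ (mul_mem (mul_mem mx mu) mk))
  -- the twelve terms
  set g := gam x (B ++ [c, d, k]) with hg
  have odd1 : ((-1 : ℤ) ^ 1) = -1 := by norm_num
  have hcd : cm c d ∈ X := hS.cm_mem c hc d hd
  have hkd : cm k d ∈ X := hS.cm_mem k hk d hd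
  have hkc : cm k c ∈ X := hS.cm_mem k hk c hc
  have kill : ∀ a b : G, cm a b = 1 → cm a b⁻¹ = 1 := by
    intro a b h
    exact cm_eq_one.mpr (cm_eq_one.mp h).inv_right
  have kill' : ∀ a b : G, b = 1 → cm a b = 1 := by
    intro a b h
    rw [h]; exact cm_eq_one.mpr (Commute.one_right a)
  have memapp : ∀ {B C : List G}, (∀ b ∈ B, b ∈ X) → (∀ b ∈ C, b ∈ X) →
      ∀ b ∈ B ++ C, b ∈ X := by
    intro B C hB hC b hb
    rcases List.mem_append.mp hb with h | h
    · exact hB b h
    · exact hC b h
  have permA : ∀ y z w : G, ([y, z, w] : List G).Perm [c, d, k] →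
      ([y] ++ (B ++ [z, w])).Perm (B ++ [c, d, k]) := by
    intro y z w h
    have h1 : ([y] ++ (B ++ [z, w])).Perm (B ++ [y, z, w]) :=
      (List.perm_middle (a := y) (l₁ := B) (l₂ := [z, w])).symm
    exact h1.trans (h.append_left B)
  have permB : ∀ y z w : G, ([y, z, w] : List G).Perm [c, d, k] →
      ((B ++ [y]) ++ [z, w]).Perm (B ++ [c, d, k]) := by
    intro y z w h
    rw [List.append_assoc]
    exact h.append_left B
  have p1 : ([c, d, k] : List G).Perm [c, d, k] := List.Perm.refl _
  have p2 : ([d, c, k] : List G).Perm [c, d, k] := List.Perm.swap c d [k]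
  have e1 : F5 x c u d k = g⁻¹ := by
    have := Sand.rel_perm hG hS (by omega) hQ hx (B := [c]) (C := B ++ [d, k]) (by simp [hc])
      (memapp hB (by simp [hd, hk])) (by simp; omega) (permA c d k p1)
    rw [List.length_singleton, odd1, zpow_neg_one] at this
    rw [← this, itc_append, ← hu]
    rfl
  have e2 : F5 x d u c k = g⁻¹ := by
    have := Sand.rel_perm hG hS (by omega) hQ hx (B := [d]) (C := B ++ [c, k]) (by simp [hd])
      (memapp hB (by simp [hc, hk])) (by simp; omega) (permA d c k p2)
    rw [List.length_singleton, odd1, zpow_neg_one] at this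
    rw [← this, itc_append, ← hu]
    rfl
  have oddB : ((-1 : ℤ) ^ (B.length + 1)) = -1 := by
    rw [pow_succ, hBeven.neg_one_pow]; norm_num
  have e5 : F5 u c x d k = g⁻¹ := by
    have := Sand.rel_perm hG hS (by omega) hQ hx (B := B ++ [c]) (C := [d, k])
      (memapp hB (by simp [hc])) (by simp [hd, hk]) (by simp; omega) (permB c d k p1)
    rw [List.length_append, List.length_singleton, oddB, zpow_neg_one] at this
    rw [← this, itc_append, ← hu]
    rfl
  have e6 : F5 u d x c k = g⁻¹ := by
    have := Sand.rel_perm hG hS (by omega) hQ hx (B := B ++ [d]) (C := [c, k])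
      (memapp hB (by simp [hd])) (by simp [hc, hk]) (by simp; omega) (permB d c k p2)
    rw [List.length_append, List.length_singleton, oddB, zpow_neg_one] at this
    rw [← this, itc_append, ← hu]
    rfl
  have gen3 : ∀ y z : G, y ∈ X → z ∈ X → F5 x y k z u = 1 := by
    intro y z hy hz
    have hkz : cm k z ∈ X := hS.cm_mem k hk z hz
    have := Sand.rel_lt hG hS hQ hx (B := [y]) (C := B ++ [cm k z]) (by simp [hy])
      (memapp hB (by simp [hkz])) (by simp; omega)
    rw [itc_append, ← hu] at this
    have h1 : F5 x y k z u = cm (itc x [y]) (itc u [cm k z])⁻¹ := by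
      unfold F5
      change cm (cm x y) (cm (cm k z) u) = cm (cm x y) (cm u (cm k z))⁻¹
      rw [cm_inv]
    rw [h1]
    exact kill _ _ this
  have gen7 : ∀ y z : G, y ∈ X → z ∈ X → F5 u y k z x = 1 := by
    intro y z hy hz
    have hkz : cm k z ∈ X := hS.cm_mem k hk z hz
    have := Sand.rel_lt hG hS hQ hx (B := B ++ [y]) (C := [cm k z])
      (memapp hB (by simp [hy])) (by simp [hkz]) (by simp; omega)
    rw [itc_append, ← hu] at this
    have h1 : F5 u y k z x = cm (itc u [y]) (itc x [cm k z])⁻¹ := by
      unfold F5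
      change cm (cm u y) (cm (cm k z) x) = cm (cm u y) (cm x (cm k z))⁻¹
      rw [cm_inv]
    rw [h1]
    exact kill _ _ this
  have gen9 : ∀ y z : G, z ∈ X → F5 k y x z u = 1 := by
    intro y z hz
    have := Sand.rel_lt hG hS hQ hx (B := [z]) (C := B) (by simp [hz]) hB (by simp; omega)
    unfold F5
    exact kill' _ _ this
  have gen11 : ∀ y z : G, z ∈ X → F5 k y u z x = 1 := by
    intro y z hz
    have := Sand.rel_lt hG hS hQ hx (B := B ++ [z]) (C := []) (memapp hB (by simp [hz])) (by simp)
      (by simp; omega)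
    rw [itc_append, ← hu] at this
    unfold F5
    exact kill' _ _ this
  rw [e1, e2, gen3 c d hc hd, gen3 d c hd hc, e5, e6, gen7 c d hc hd, gen7 d c hd hc,
    gen9 c d hd, gen9 d c hc, gen11 c d hd, gen11 d c hc] at hpol
  have hpol' : (g ^ 4)⁻¹ = 1 := by
    rw [← hpol]; group
  exact eq_one_of_four hG (inv_eq_one.mp hpol')

/-- `Q(n)` for all `n`. -/
theorem Q_all' (hp : p.Prime) (hodd : p ≠ 2) (hG : OddG G) (hL : LawP {z : G | z ^ p = 1}) (hS : Sand X)
    (hX : ∀ x ∈ X, x ^ p = 1) (N : ℕ) : Q X N := by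
  induction N using Nat.strong_induction_on with
  | _ N ih =>
    rcases Nat.even_or_odd N with h | h
    · exact Sand.Q_even hG hS h ih
    · by_cases h3 : 5 ≤ N
      · exact Q_odd' hp hodd hG hL hS hX h h3 ih
      · have h13 : N = 1 ∨ N = 3 := by obtain ⟨m, hm⟩ := h; omega
        rcases h13 with rfl | rfl
        · exact Sand.Q_one hS
        · exact Q_three hp hodd hG hL hS hX ih

/-- Finitely many elements of `X` generate a nilpotent group. -/
theorem class_fin' (hp : p.Prime) (hodd : p ≠ 2) (hG : OddG G) (hL : LawP {z : G | z ^ p = 1})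
    (hS : Sand X) (hX : ∀ x ∈ X, x ^ p = 1) (s : Finset G)
    (hs : ∀ b ∈ s, b ∈ X) : lc (closure (s : Set G)) s.card = ⊥ :=
  Sand.class_of_Q hS (M := s.card) (fun m _ => Q_all' hp hodd hG hL hS hX m) s hs (by omega)

/-- The closure of a sandwich set is locally finite. -/
theorem sand_LF' (hp : p.Prime) (hodd : p ≠ 2) (hG : OddG G) (hL : LawP {z : G | z ^ p = 1})
    (ht : ∀ g : G, IsOfFinOrder g) (hS : Sand X) (hX : ∀ x ∈ X, x ^ p = 1) : LF (closure X) := by
  classical
  intro s
  -- finitely many elements of X suffice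
  have key : ∀ g : G, g ∈ closure X → ∃ t : Finset G, (∀ b ∈ t, b ∈ X) ∧
      g ∈ closure (t : Set G) := by
    intro g hg
    induction hg using closure_induction with
    | mem x hx => exact ⟨{x}, by simpa using hx, subset_closure (by simp)⟩
    | one => exact ⟨∅, by simp, one_mem _⟩
    | mul a b _ _ ha hb =>
      obtain ⟨t, ht, ha⟩ := ha
      obtain ⟨t', ht', hb⟩ := hb
      refine ⟨t ∪ t', ?_, mul_mem (closure_mono (by simp) ha) (closure_mono (by simp) hb)⟩
      intro c hc
      rcases Finset.mem_union.mp hc with h | h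
      · exact ht c h
      · exact ht' c h
    | inv a _ ha =>
      obtain ⟨t, ht, ha⟩ := ha
      exact ⟨t, ht, inv_mem ha⟩
  have key2 : ∃ t : Finset G, (∀ b ∈ t, b ∈ X) ∧ ∀ x ∈ s, (x : G) ∈ closure (t : Set G) := by
    induction s using Finset.induction_on with
    | empty => exact ⟨∅, by simp, by simp⟩
    | insert a s _ ih =>
      obtain ⟨t, ht, hs⟩ := ih
      obtain ⟨t', ht', ha⟩ := key a a.2
      refine ⟨t ∪ t', ?_, ?_⟩
      · intro c hc
        rcases Finset.mem_union.mp hc with h | h
        · exact ht c h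
        · exact ht' c h
      · intro x hx
        rcases Finset.mem_insert.mp hx with h | h
        · rw [h]; exact closure_mono (by simp) ha
        · exact closure_mono (by simp) (hs x h)
  obtain ⟨t, htX, hst⟩ := key2
  have h1 := class_fin' hp hodd hG hL hS hX t htX
  have h2 : LF (closure (t : Set G)) := LF_of_nilp _ _ (fin_sub ht _) h1
  let f : closure (s : Set (closure X)) →* closure (t : Set G) :=
    { toFun := fun x => ⟨((x : closure X) : G), by
        have hx := x.2
        have h3 : closure (s : Set (closure X)) ≤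
            (closure (t : Set G)).comap (closure X).subtype := by
          rw [closure_le]
          intro y hy
          exact hst y (by exact_mod_cast hy)
        exact h3 hx⟩
      map_one' := rfl
      map_mul' := fun _ _ => rfl }
  have hf : Function.Injective f := by
    intro a b hab
    apply Subtype.ext
    apply Subtype.ext
    have h := congrArg (fun z : closure (t : Set G) => (z : G)) hab
    exact h
  have h3 := h2.of_inj f hf
  have h4 : Group.FG (closure (s : Set (closure X))) := (Group.fg_iff_subgroup_fg _).2 ⟨s, rfl⟩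
  exact h3.finite

end Pool.Agent.H77.SP
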