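import Pool.Agent.H77.SP.LemA
import Pool.Agent.H76.MB.Fin

/-!
# Conjugate pairs, with the law for first arguments in `P` only
-/

set_option autoImplicit false

namespace Pool.Agent.H77.SP

open Subgroup Pool.Agent.H76.MB
open scoped commutatorElement

variable {G : Type*} [Group G] {P : Set G}

/-- Relation (R): `[v, (u^x)⁻¹] = [(v^x)⁻¹, u]`, used in the form: if `u` commutes with `v`
up to one step, then with the next step. -/
theorem pair_step (hP : CInv P) (hL : LawP P) {x g h : G} (hx : x ∈ P)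
    (hc : Commute (cm x h) (cj (cm x g) x)) :
    Commute (cj (cm x h) x) (cm x g) := by
  set u := cm x g with hu
  set v := cm x h with hv
  have lu : Commute u (cj u x) := hL x hx g
  have lv : Commute v (cj v x) := hL x hx h
  -- the conjugates x u = x^g, x v = x^h
  have hxu : cj x g = x * u := cj_eq x g
  have hxv : cj x h = x * v := cj_eq x h
  have l := hL (cj x g) (hP x hx g) (g⁻¹ * h)
  have h1 : cm (cj x g) (g⁻¹ * h) = u⁻¹ * v := by
    have : cm (cj x g) (g⁻¹ * h) = (cj x g)⁻¹ * cj x h := by unfold cm cj; group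
    rw [this, hxu, hxv]; group
  rw [h1, hxu] at l
  -- conjugate by u⁻¹
  have l2 := comm_cj l u⁻¹
  have e1 : cj (u⁻¹ * v) u⁻¹ = v * u⁻¹ := by unfold cj; group
  have e2 : cj (cj (u⁻¹ * v) (x * u)) u⁻¹ = (cj u x)⁻¹ * cj v x := by
    rw [cj_cj]
    have : x * u * u⁻¹ = x := by group
    rw [this, cj_mul, cj_inv]
  rw [e1, e2] at l2
  set U := cj u x with hU
  set V := cj v x with hV
  -- l2 : v u⁻¹ commutes with U⁻¹ V; lu: u U = U u; lv : v V = V v; hc : v U = U v
  have l3 : v * u⁻¹ * (U⁻¹ * V) = U⁻¹ * V * (v * u⁻¹) := l2.eq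
  have l4 : v * u⁻¹ * (U⁻¹ * V) = U⁻¹ * v * (u⁻¹ * V) := by
    calc v * u⁻¹ * (U⁻¹ * V) = v * (u⁻¹ * U⁻¹) * V := by group
      _ = (v * U⁻¹) * u⁻¹ * V := by rw [lu.inv_inv.eq]; group
      _ = U⁻¹ * v * (u⁻¹ * V) := by rw [hc.inv_right.eq]; group
  have l5 : U⁻¹ * V * (v * u⁻¹) = U⁻¹ * v * (V * u⁻¹) := by
    calc U⁻¹ * V * (v * u⁻¹) = U⁻¹ * (V * v) * u⁻¹ := by group
      _ = U⁻¹ * v * (V * u⁻¹) := by rw [← lv.eq]; group
  rw [l4, l5] at l3
  have l6 : u⁻¹ * V = V * u⁻¹ := mul_left_cancel l3
  have l7 : Commute V u⁻¹ := l6.symm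
  simpa using l7.inv_right

/-- `u = [x, g]` commutes with all `u ^ (x ^ i)`. -/
theorem pair_all (hP : CInv P) (hL : LawP P) {x : G} (hx : x ∈ P) (g : G) (i : ℕ) :
    Commute (cm x g) (cj (cm x g) (x ^ i)) := by
  induction i using Nat.strong_induction_on with
  | _ i ih =>
    rcases i with _ | _ | i
    · rw [pow_zero, cj_one]
    · rw [zero_add, pow_one]; exact hL x hx g
    · have h1 : Commute (cm x (g * x ^ (i + 1))) (cj (cm x g) x) := by
        rw [← cj_pow_cm, pow_succ, ← cj_cj]
        exact comm_cj (ih i (by omega)).symm x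
      have h2 := pair_step hP hL hx h1
      rw [← cj_pow_cm, cj_cj, ← pow_succ] at h2
      exact h2.symm

/-- All conjugates of `u = [x, g]` under powers of `x` commute. -/
theorem pair_all' (hP : CInv P) (hL : LawP P) {x : G} (hx : x ∈ P) (g : G) (i j : ℕ) :
    Commute (cj (cm x g) (x ^ i)) (cj (cm x g) (x ^ j)) := by
  have key : ∀ i j : ℕ, i ≤ j → Commute (cj (cm x g) (x ^ i)) (cj (cm x g) (x ^ j)) := by
    intro i j hij
    obtain ⟨k, rfl⟩ := Nat.exists_eq_add_of_le hij
    have h := comm_cj (pair_all hP hL hx g k) (x ^ i)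
    rwa [cj_cj, ← pow_add, Nat.add_comm k i] at h
  rcases le_total i j with h | h
  · exact key i j h
  · exact (key j i h).symm

/-- The subgroup generated by `x` and `u = [x, g]` is locally finite. -/
theorem pair_LF (hP : CInv P) (hL : LawP P) (ht : ∀ g : G, IsOfFinOrder g) {x : G} (hx : x ∈ P) (g : G) :
    LF (closure {x, cm x g} : Subgroup G) := by
  set u := cm x g with hu
  set T := closure {x, u} with hT
  have hxT : x ∈ T := subset_closure (by simp)
  have huT : u ∈ T := subset_closure (by simp)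
  let x' : T := ⟨x, hxT⟩
  let u' : T := ⟨u, huT⟩
  set A : Set T := {y | ∃ i : ℕ, y = cj u' (x' ^ i)} with hA
  set N := closure A with hN
  have hAc : ∀ y ∈ A, ∀ z ∈ A, Commute y z := by
    rintro _ ⟨i, rfl⟩ _ ⟨j, rfl⟩
    have h := pair_all' hP hL hx g i j
    apply Subtype.ext
    have e : ∀ i : ℕ, ((cj u' (x' ^ i) : T) : G) = cj u (x ^ i) := by
      intro i; unfold cj; simp [x', u']
    rw [Subgroup.coe_mul, Subgroup.coe_mul, e, e]
    exact h.eq
  have hNc : ∀ y ∈ N, ∀ z ∈ N, Commute y z := by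
    intro y hy z hz
    refine comm_closure (fun a ha => ?_) hz
    exact (comm_closure (fun b hb => hAc a ha b hb) hy).symm
  -- x has finite order
  obtain ⟨n, hn, hxn⟩ := isOfFinOrder_iff_pow_eq_one.mp (ht x)
  have hxn' : x' ^ n = 1 := Subtype.ext hxn
  have hxinv : ∃ m : ℕ, x'⁻¹ = x' ^ m := by
    refine ⟨n - 1, ?_⟩
    rw [inv_eq_iff_mul_eq_one, ← pow_succ']
    rw [show n - 1 + 1 = n by omega]
    exact hxn'
  -- normality: conjugation by x' and x'⁻¹ and u'
  have hclos : closure ({x', u'} : Set T) = ⊤ := by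
    have h1 := closure_closure_coe_preimage (k := ({x, u} : Set G))
    have h2 : ((T.subtype ⁻¹' ({x, u} : Set G)) : Set T) = {x', u'} := by
      ext y
      constructor
      · intro hy
        rcases hy with h | h
        · left; exact Subtype.ext h
        · right; exact Subtype.ext h
      · rintro (h | h)
        · rw [h]; left; rfl
        · rw [h]; right; rfl
    rw [← h2]
    exact h1
  have hconj : ∀ t : T, (∀ y ∈ A, cj y t ∈ N) → ∀ y ∈ N, cj y t ∈ N := by
    intro t h y hy
    induction hy using closure_induction with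
    | mem y hy => exact h y hy
    | one => rw [one_cj]; exact one_mem N
    | mul a b _ _ ha hb => rw [cj_mul]; exact mul_mem ha hb
    | inv a _ ha => rw [cj_inv]; exact inv_mem ha
  have hxp : ∀ m : ℕ, ∀ y ∈ A, cj y (x' ^ m) ∈ N := by
    rintro m _ ⟨i, rfl⟩
    rw [cj_cj, ← pow_add]
    exact subset_closure ⟨i + m, rfl⟩
  have hu'N : u' ∈ N := subset_closure ⟨0, by rw [pow_zero, cj_one]⟩
  have hall : ∀ t : T, (∀ y ∈ N, cj y t ∈ N) ∧ (∀ y ∈ N, cj y t⁻¹ ∈ N) := by
    intro t
    have ht' : t ∈ closure ({x', u'} : Set T) := by rw [hclos]; exact mem_top t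
    induction ht' using closure_induction with
    | mem t ht =>
      rcases ht with h | h
      · rw [h]
        refine ⟨hconj x' ?_, ?_⟩
        · have := hxp 1
          rwa [pow_one] at this
        · obtain ⟨m, hm⟩ := hxinv
          rw [hm]
          exact hconj _ (hxp m)
      · have h' : t = u' := h
        rw [h']
        constructor
        · intro y hy
          rw [cj_eq_of_comm (hNc y hy u' hu'N)]
          exact hy
        · intro y hy
          rw [cj_eq_of_comm (hNc y hy u' hu'N).inv_right]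
          exact hy
    | one => rw [inv_one]; exact ⟨fun y hy => by rwa [cj_one], fun y hy => by rwa [cj_one]⟩
    | mul a b _ _ ha hb =>
      constructor
      · intro y hy
        rw [← cj_cj]
        exact hb.1 _ (ha.1 y hy)
      · intro y hy
        rw [mul_inv_rev, ← cj_cj]
        exact ha.2 _ (hb.2 y hy)
    | inv a _ ha => rw [inv_inv]; exact ⟨ha.2, ha.1⟩
  have hNn : N.Normal := by
    constructor
    intro y hy t
    have := (hall t).2 y hy
    unfold cj at this
    rwa [inv_inv] at this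
  refine LF.ext N ?_ ?_
  · exact LF_of_comm (fun a b => Subtype.ext (hNc a a.2 b b.2).eq) (fin_sub (fin_sub ht T) N)
  · -- the quotient is abelian
    have hq : ∀ t : T, ∃ m : ℕ, QuotientGroup.mk' N t = QuotientGroup.mk' N x' ^ m := by
      intro t
      have ht' : t ∈ closure ({x', u'} : Set T) := by rw [hclos]; exact mem_top t
      induction ht' using closure_induction with
      | mem t ht =>
        rcases ht with h | h
        · exact ⟨1, by rw [h, pow_one]⟩
        · have h' : t = u' := h
          refine ⟨0, ?_⟩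
          rw [h', pow_zero]
          exact (QuotientGroup.eq_one_iff u').mpr hu'N
      | one => exact ⟨0, by rw [pow_zero, map_one]⟩
      | mul a b _ _ ha hb =>
        obtain ⟨m, hm⟩ := ha
        obtain ⟨k, hk⟩ := hb
        exact ⟨m + k, by rw [map_mul, hm, hk, pow_add]⟩
      | inv a _ ha =>
        obtain ⟨m, hm⟩ := ha
        obtain ⟨k, hk⟩ := hxinv
        refine ⟨k * m, ?_⟩
        rw [map_inv, hm, ← inv_pow, ← map_inv, hk, map_pow, ← pow_mul]
    refine LF_of_comm ?_ ?_
    · intro a b
      obtain ⟨a, rfl⟩ := QuotientGroup.mk'_surjective _ a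
      obtain ⟨b, rfl⟩ := QuotientGroup.mk'_surjective _ b
      obtain ⟨m, hm⟩ := hq a
      obtain ⟨k, hk⟩ := hq b
      rw [hm, hk, ← pow_add, ← pow_add, Nat.add_comm]
    · intro a
      obtain ⟨a, rfl⟩ := QuotientGroup.mk'_surjective _ a
      exact MonoidHom.isOfFinOrder (QuotientGroup.mk' N) (fin_sub ht T a)


end Pool.Agent.H77.SP
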