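import Pool.Agent.H77.SP.OddQ
import Pool.Agent.H77.SP.Pair

/-!
# `p`-groups, `p` odd, with `[u, u ^ x]`, `u = [x, g]`, in the normal closure of `x ^ p`
-/

set_option autoImplicit false

namespace Pool.Agent.H77.SP

open Subgroup Pool.Agent.H76.MB
open scoped commutatorElement

variable {G : Type*} [Group G]

theorem c2_pow {x y : G} (h : C2 x y) {n : ℕ} (hx : x ^ n = 1) : (cm x y) ^ n = 1 := by
  have h1 : (x * cm x y) ^ n = 1 := by
    rw [← cj_eq, ← cj_pow, hx, one_cj]
  rw [h.1.mul_pow, hx, one_mul] at h1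
  exact h1

/-- If there is no non-trivial locally finite normal subgroup, there are no elements of order `p`. -/
theorem trivial_of_rad' {p : ℕ} (hp : p.Prime) (hodd : p ≠ 2) (hG : IsPGroup p G)
    (hL : LawP {z : G | z ^ p = 1})
    (hR : ∀ B : Subgroup G, B.Normal → LF B → B = ⊥) (x : G) (hx : x ^ p = 1) : x = 1 := by
  have hO := odd_of_pgroup hp hodd hG
  have ht := fin_of_pgroup hp hG
  have hP : CInv {z : G | z ^ p = 1} := by
    intro z hz g
    change (cj z g) ^ p = 1
    rw [← cj_pow, show z ^ p = 1 from hz, one_cj]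
  -- class-2 pairs commute
  have hC2 : ∀ a w : G, a ^ p = 1 → C2 a w → Commute a w := by
    intro a w ha h
    set e := cm a w with he
    have hep : e ^ p = 1 := c2_pow h ha
    obtain ⟨Y, hXY, hS⟩ := exists_sand hO (X := {z | ∃ g : G, z = cj e g})
      (by
        rintro _ ⟨g, rfl⟩ t
        exact ⟨g * t, cj_cj e g t⟩)
      (by
        rintro _ ⟨s, rfl⟩ _ ⟨t, rfl⟩
        exact lemB2 hO hP hL (show a ∈ {z : G | z ^ p = 1} from ha) h s t)
    have hS' : Sand (Y ∩ {z : G | z ^ p = 1}) :=
      ⟨fun z hz g => ⟨hS.cj_mem z hz.1 g, hP z hz.2 g⟩,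
        fun z hz y hy => hS.c2 z hz.1 y hy.1,
        fun z hz y hy => ⟨hS.cm_mem z hz.1 y hy.1, c2_pow (hS.c2 z hz.1 y hy.1) hz.2⟩⟩
    have h1 := hR (closure (Y ∩ {z : G | z ^ p = 1})) (closure_normal hS'.cj_mem)
      (sand_LF' hp hodd hO hL ht hS' fun z hz => hz.2)
    have h2 : e ∈ closure (Y ∩ {z : G | z ^ p = 1}) :=
      subset_closure ⟨hXY ⟨1, (cj_one e).symm⟩, hep⟩
    rw [h1, mem_bot] at h2
    exact cm_eq_one.mp h2
  -- conjugates commute
  have hconj : ∀ y g : G, y ^ p = 1 → Commute y (cj y g) := by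
    intro y g hy
    have h1 := pair_LF hP hL ht (show y ∈ {z : G | z ^ p = 1} from hy) g
    have hfg : Group.FG (closure {y, cm y g} : Subgroup G) :=
      (Group.fg_iff_subgroup_fg _).2 ((Subgroup.fg_iff _).2 ⟨_, rfl, Set.toFinite _⟩)
    have hfin : Finite (closure {y, cm y g} : Subgroup G) := h1.finite
    have := Fact.mk hp
    have hnil : Group.IsNilpotent (closure {y, cm y g} : Subgroup G) :=
      (hG.to_subgroup _).isNilpotent
    obtain ⟨n, hn⟩ := (Subgroup.nilpotent_iff_lowerCentralSeries).mp hnil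
    have hn' : lc (closure {y, cm y g} : Subgroup G) n = ⊥ := hn
    set Z := closure {z : G | ∃ i : ℕ, z = cj (cm y g) (y ^ i)} with hZ
    have hZc : ∀ a ∈ Z, ∀ b ∈ Z, Commute a b := by
      intro a ha b hb
      refine comm_closure (fun b hb => ?_) hb
      refine (comm_closure (fun a ha => ?_) ha).symm
      obtain ⟨i, rfl⟩ := ha
      obtain ⟨j, rfl⟩ := hb
      exact pair_all' hP hL (show y ∈ {z : G | z ^ p = 1} from hy) g j i
    have hZy : ∀ z ∈ Z, cj z y ∈ Z := by
      intro z hz
      induction hz using closure_induction with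
      | mem z hz =>
        obtain ⟨i, rfl⟩ := hz
        rw [cj_cj, ← pow_succ]
        exact subset_closure ⟨i + 1, rfl⟩
      | one => rw [one_cj]; exact one_mem _
      | mul a b _ _ ha hb => rw [cj_mul]; exact mul_mem ha hb
      | inv a _ ha => rw [cj_inv]; exact inv_mem ha
    let y' : (closure {y, cm y g} : Subgroup G) := ⟨y, subset_closure (by simp)⟩
    have key : ∀ m : ℕ, ∀ z : (closure {y, cm y g} : Subgroup G),
        z ∈ lc (closure {y, cm y g} : Subgroup G) (n - m) → (z : G) ∈ Z → Commute y (z : G) := by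
      intro m
      induction m with
      | zero =>
        intro z hz _
        rw [Nat.sub_zero, hn', mem_bot] at hz
        rw [hz]
        exact Commute.one_right y
      | succ m ih =>
        intro z hz hzZ
        rcases Nat.lt_or_ge m n with hmn | hmn
        · have e1 : n - m = (n - (m + 1)) + 1 := by omega
          have h2 := cm_mem_lc_succ hz y'
          rw [← e1] at h2
          have e2 : ((cm z y' : (closure {y, cm y g} : Subgroup G)) : G) = cm (z : G) y :=
            cm_map (closure {y, cm y g}).subtype z y'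
          have h3 : cm (z : G) y ∈ Z := by
            rw [cm_eq]
            exact mul_mem (inv_mem hzZ) (hZy _ hzZ)
          have h4 := ih (cm z y') h2 (by rw [e2]; exact h3)
          rw [e2] at h4
          have h6 := hZc _ hzZ _ h3
          have e3 : cm y (z : G) = (cm (z : G) y)⁻¹ := (cm_inv _ _).symm
          apply hC2 y z hy
          constructor
          · rw [e3]; exact h4.inv_right
          · rw [e3]; exact h6.inv_right
        · have e1 : n - (m + 1) = n - m := by omega
          rw [e1] at hz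
          exact ih z hz hzZ
    have h7 := key n ⟨cm y g, subset_closure (by simp)⟩
      (by rw [Nat.sub_self]; exact mem_lc_zero _)
      (subset_closure ⟨0, by rw [pow_zero, cj_one]⟩)
    rw [cj_eq]
    exact (Commute.refl y).mul_right h7
  -- the normal closure of x
  have h1 := hR (closure {z | ∃ g : G, z = cj x g}) (closure_normal (by
      rintro _ ⟨g, rfl⟩ t
      exact ⟨g * t, cj_cj x g t⟩)) (by
    refine LF_of_comm ?_ (fin_sub ht _)
    have hc : ∀ a ∈ closure {z | ∃ g : G, z = cj x g}, ∀ b ∈ closure {z | ∃ g : G, z = cj x g},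
        Commute a b := by
      intro a ha b hb
      refine comm_closure (fun b hb => ?_) hb
      refine (comm_closure (fun a ha => ?_) ha).symm
      obtain ⟨s, rfl⟩ := ha
      obtain ⟨t, rfl⟩ := hb
      have := comm_cj (hconj x (s * t⁻¹) hx) t
      rwa [cj_cj, mul_assoc, inv_mul_cancel, mul_one] at this
    intro a b
    exact Subtype.ext (hc a a.2 b b.2).eq)
  have h2 : x ∈ closure {z | ∃ g : G, z = cj x g} := subset_closure ⟨1, (cj_one x).symm⟩
  rw [h1, mem_bot] at h2
  exact h2

/-- the condition: `[u, u ^ x]`, `u = [x, g]`, lies in the normal closure of `x ^ p` -/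
def Cond (p : ℕ) (G : Type*) [Group G] : Prop :=
  ∀ x g : G, ⁅cm x g, cj (cm x g) x⁆ ∈ normalClosure {x ^ p}

theorem Cond.quot {p : ℕ} (h : Cond p G) (N : Subgroup G) [N.Normal] : Cond p (G ⧸ N) := by
  intro a b
  obtain ⟨a, rfl⟩ := QuotientGroup.mk'_surjective _ a
  obtain ⟨b, rfl⟩ := QuotientGroup.mk'_surjective _ b
  have h1 := h a b
  have e : ∀ x y : G, cj (QuotientGroup.mk' N x) (QuotientGroup.mk' N y) =
      QuotientGroup.mk' N (cj x y) := by
    intro x y; unfold cj; simp
  rw [← cm_map, e, ← map_commutatorElement]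
  have h2 : normalClosure {a ^ p} ≤
      (normalClosure {(QuotientGroup.mk' N a) ^ p}).comap (QuotientGroup.mk' N) := by
    refine normalClosure_le_normal ?_
    rw [Set.singleton_subset_iff]
    change QuotientGroup.mk' N (a ^ p) ∈ normalClosure {(QuotientGroup.mk' N a) ^ p}
    rw [map_pow]
    exact subset_normalClosure rfl
  exact h2 h1

theorem Cond.law {p : ℕ} (h : Cond p G) : LawP {z : G | z ^ p = 1} := by
  intro x hx g
  have h1 := h x g
  have h2 : normalClosure {x ^ p} = ⊥ := by
    rw [show x ^ p = 1 from hx]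
    rw [eq_bot_iff]
    refine normalClosure_le_normal ?_
    rw [Set.singleton_subset_iff]
    exact one_mem _
  rw [h2, mem_bot] at h1
  exact commutatorElement_eq_one_iff_commute.1 h1

/-- The theorem. -/
theorem main_SP {p : ℕ} (hp : p.Prime) (hodd : p ≠ 2) (hG : IsPGroup p G) (h : Cond p G) : LF G := by
  have hq : IsPGroup p (G ⧸ rad G) := hG.to_quotient (rad G)
  have h0 : ∀ x : G ⧸ rad G, x ^ p = 1 → x = 1 :=
    trivial_of_rad' hp hodd hq (h.quot (rad G)).law (rad_quot G)
  have h1 : ∀ x : G ⧸ rad G, x = 1 := by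
    have hk : ∀ k : ℕ, ∀ x : G ⧸ rad G, x ^ p ^ k = 1 → x = 1 := by
      intro k
      induction k with
      | zero => intro x hx; rwa [pow_zero, pow_one] at hx
      | succ k ih =>
        intro x hx
        apply ih
        apply h0
        rw [← pow_mul, ← pow_succ]
        exact hx
    intro x
    obtain ⟨k, hk'⟩ := hq x
    exact hk k x hk'
  have h2 : rad G = ⊤ := by
    rw [eq_top_iff]
    intro x _
    exact (QuotientGroup.eq_one_iff x).mp (h1 x)
  have h3 := rad_LF G
  rw [h2] at h3
  exact h3.of_inj (Subgroup.topEquiv (G := G)).symm.toMonoidHom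
    (Subgroup.topEquiv (G := G)).symm.injective

end Pool.Agent.H77.SP
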